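import Pool.Agent.Lib.MP_e3fe77_co.Main

/-! Coefficient positivity of the two q-factorial ratios with parameters 15n, 10n, 4n, 3n, 2n. -/

namespace Pool.Agent.Results.MP_e3fe77_co.Positivity
open Polynomial

/-- The q-factorial `[m]! = (1 - q) (1 - q^2) ⋯ (1 - q^m)` as an integer polynomial in `q = X`. -/
noncomputable def qfac (m : ℕ) : ℤ[X] := ∏ i ∈ Finset.Icc 1 m, (1 - X ^ i)

theorem result (n : ℕ) (hn : 1 ≤ n) :
    (∃ A : ℤ[X], (∀ i, 0 ≤ A.coeff i) ∧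
      A * ((1 - X ^ (10 * n + 1)) * qfac (10 * n) * qfac (4 * n) * qfac (3 * n))
        = (1 - X) * qfac (15 * n) * qfac (2 * n)) ∧
    (∃ B : ℤ[X], (∀ i, 0 ≤ B.coeff i) ∧
      B * ((1 - X) * (1 - X ^ (10 * n + 3)) * qfac (10 * n) * qfac (4 * n) * qfac (3 * n))
        = (1 - X ^ 3) * (1 - X ^ 7) * qfac (15 * n) * qfac (2 * n)) := by
  have e : ∀ m, qfac m = Pool.Agent.Lib.MP_e3fe77_co.pr 0 m := fun m => by
    unfold qfac Pool.Agent.Lib.MP_e3fe77_co.pr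
    rw [show Finset.Icc 1 m = Finset.Ioc 0 m by ext; simp; omega]
  simp only [e]
  exact Pool.Agent.Lib.MP_e3fe77_co.reduce hn (Pool.Agent.Lib.MP_e3fe77_co.En_nonneg hn)

end Pool.Agent.Results.MP_e3fe77_co.Positivity
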